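import Pool.Agent.H19.ES.Slot
import Pool.Agent.H71.K3.PlInf

/-! # EI.Cusp : points on a cuspidal fibre have class zero (about 80 lines)

`p j = (b₀, x₀, y₀)` with `b₀ a = b₀ b = 0`: `y₀² = x₀³`, so `x₀ = s₀²`, `y₀ = s₀³` (`s₀ = y₀/x₀`, or `0`).  The tuple over `Ω` with the point `(b₀, (s₀ + tt)², (s₀ + tt)³)` in the slot `j` and the constant points `cst' (p i)` in the others: one tuple, on `S`, fixed by all `gal σ`; at `π₀` with `tt ↦ 0` (`place_exists K 0`) it reduces to `p`; at
the place with `tt ∉ V` (`H71.K3.place_inf`) `(s₀ + tt)²` is not integral (`mem_of_root` in `H67.KH.Val`, or: if `z² ∈ V` then `z ∈ V`): dropped.  `Fnl.eq_zero`. -/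

namespace H19.ES

open H68.BB

variable {K A : Type} [Field K] [IsAlgClosed K] [CommRing A] [Algebra K A] {G : Type} [AddCommGroup G] {n : ℕ}

omit [IsAlgClosed K] in
private theorem cu_sigma (σ : Om K ≃ₐ[RatFunc K] Om K) (c : K) :
    σ (algebraMap K (Om K) c) = algebraMap K (Om K) c := by
  have h : (algebraMap K (Om K) c) = algebraMap (RatFunc K) (Om K) (algebraMap K (RatFunc K) c) :=
    IsScalarTower.algebraMap_apply K (RatFunc K) (Om K) c
  rw [h]
  exact σ.commutes _

omit [IsAlgClosed K] in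
private theorem cu_cst {a b : A} {P : Pt K A K} (h : OnS a b P) : OnS a b (cst' P) := by
  have h1 := congrArg (algebraMap K (Om K)) h
  simp only [map_add, map_mul, map_pow] at h1
  exact h1

omit [IsAlgClosed K] in
private theorem cu_root {x y : K} (h : y ^ 2 = x ^ 3) : ∃ s : K, s ^ 2 = x ∧ s ^ 3 = y := by
  by_cases hx : x = 0
  · subst hx
    have hy : y = 0 := by
      have h1 : y ^ 2 = 0 := by rw [h]; ring
      exact (pow_eq_zero_iff two_ne_zero).1 h1
    exact ⟨0, by ring, by rw [hy]; ring⟩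
  · refine ⟨y / x, ?_, ?_⟩
    · rw [div_pow, h]
      field_simp
    · rw [div_pow, div_eq_iff (pow_ne_zero 3 hx), ← h]
      ring

theorem cusp {a b : A} (Φ : Fnl (OnS (K := K) a b) n G) (p : Fin n → Pt K A K) (hp : ∀ i, OnS a b (p i)) (j : Fin n)
    (ha : (p j).b a = 0) (hb : (p j).b b = 0) : Φ.cl p = 0 := by
  classical
  obtain ⟨π₀, h0, h0'⟩ := place_exists K 0
  obtain ⟨π₁, h1⟩ := H71.K3.place_inf K
  have hj : (p j).y ^ 2 = (p j).x ^ 3 := by
    have h2 : (p j).y ^ 2 = (p j).x ^ 3 + (p j).b a * (p j).x + (p j).b b := hp j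
    rw [h2, ha, hb]
    ring
  obtain ⟨s, hs2, hs3⟩ := cu_root hj
  have ht : Rd π₀.V π₀.φ (tt K) 0 := ⟨h0, h0'⟩
  set w : Om K := algebraMap K (Om K) s + tt K with hw
  have hrw : Rd π₀.V π₀.φ w s := by
    have hcx : Rd π₀.V π₀.φ (algebraMap K (Om K) s) s := π₀.const s
    have h := hcx.add ht
    rwa [add_zero] at h
  set q : Fin n → Pt K A (Om K) := Function.update (fun i => cst' (p i)) j
    ⟨(cst' (p j)).b, w ^ 2, w ^ 3⟩ with hq
  have hqj : q j = ⟨(cst' (p j)).b, w ^ 2, w ^ 3⟩ := by rw [hq, Function.update_self]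
  have hqi : ∀ i, i ≠ j → q i = cst' (p i) := fun i hi => by rw [hq, Function.update_of_ne hi]
  refine Φ.eq_zero (π := π₀) (π' := π₁) (S := {q}) ?_ ?_ (Lim.single (Or.inl ⟨p, ?_, rfl⟩)) ?_
  · intro t htq i
    rw [Multiset.mem_singleton.1 htq]
    by_cases hi : i = j
    · rw [hi, hqj]
      show (w ^ 3) ^ 2 = (w ^ 2) ^ 3 + algebraMap K (Om K) ((p j).b a) * w ^ 2 +
        algebraMap K (Om K) ((p j).b b)
      rw [ha, hb, map_zero]
      ring
    · rw [hqi i hi]
      exact cu_cst (hp i)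
  · intro σ
    rw [Multiset.map_singleton]
    congr 1
    have hσw : σ w = w := by
      have h2 : σ (tt K) = tt K := σ.commutes _
      rw [hw, map_add, cu_sigma, h2]
    funext i
    show (q i).map (σ.toAlgHom.restrictScalars K) = q i
    by_cases hi : i = j
    · rw [hi, hqj]
      refine Pt.ext ?_ ?_ ?_
      · apply AlgHom.ext
        intro r
        exact cu_sigma σ ((p j).b r)
      · show σ (w ^ 2) = w ^ 2
        rw [map_pow, hσw]
      · show σ (w ^ 3) = w ^ 3
        rw [map_pow, hσw]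
    · rw [hqi i hi]
      refine Pt.ext ?_ ?_ ?_
      · apply AlgHom.ext
        intro r
        exact cu_sigma σ ((p i).b r)
      · exact cu_sigma σ _
      · exact cu_sigma σ _
  · intro i
    by_cases hi : i = j
    · rw [hi, hqj]
      refine ⟨fun r => π₀.const _, ?_, ?_⟩
      · have h2 := hrw.pow 2
        rwa [hs2] at h2
      · have h2 := hrw.pow 3
        rwa [hs3] at h2
    · rw [hqi i hi]
      exact Sp_cst' π₀ (p i)
  · intro t htq
    rw [Multiset.mem_singleton.1 htq]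
    refine ⟨j, fun h => h1 ?_⟩
    rw [hqj] at h
    have h2 : w ^ 2 ∈ π₁.V := h.2.1
    have h3 : w ∈ π₁.V := by
      by_contra hno
      have h4 : w⁻¹ ∈ π₁.V := (π₁.V.mem_or_inv_mem w).resolve_left hno
      have hw0 : w ≠ 0 := by
        intro h0
        exact hno (h0 ▸ π₁.V.zero_mem)
      have h5 : w = w ^ 2 * w⁻¹ := by field_simp
      exact hno (h5 ▸ π₁.V.mul_mem _ _ h2 h4)
    have h4 : algebraMap K (Om K) s ∈ π₁.V := (π₁.const s).choose
    have h5 : tt K = w - algebraMap K (Om K) s := by rw [hw]; ring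
    rw [h5]
    exact π₁.V.toSubring.sub_mem h3 h4

end H19.ES
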