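import Pool.Agent.H19.ES.Crv

/-! # EI.E0R : the coordinate ring of the affine curve `E₀ : Y² = X³ + a₀ X + b₀` (Mathlib only, about 120 lines)

`D = AdjoinRoot (Y² - C (X³ + a₀ X + b₀) : K[X][Y])` (or `WeierstrassCurve.Affine.CoordinateRing`, which has `Basis (Fin 2) K[X]` and `IsDomain`): basis `1, Y` over `K[X]`; a domain (`X³ + a₀X + b₀` is not a square); `Y * Y = X³ + a₀X + b₀`: structure constants of degree `≤ 3`.
Homomorphisms to `F`: `AdjoinRoot.lift`. -/

namespace H19.ES

open Polynomial

/-- the Weierstrass curve `y² = x³ + a₀ x + b₀` -/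
private noncomputable def e0w {K : Type} [Field K] (a0 b0 : K) : WeierstrassCurve.Affine K :=
  (⟨0, 0, 0, a0, b0⟩ : WeierstrassCurve K)

private theorem e0_pol {K : Type} [Field K] (a0 b0 : K) :
    (e0w a0 b0).polynomial = X ^ 2 - C (X ^ 3 + C a0 * X + C b0) := by
  unfold WeierstrassCurve.Affine.polynomial e0w
  simp only [map_zero, zero_mul, add_zero]

private theorem e0_mem {K D : Type} [Field K] [CommRing D] [Algebra K D] [Algebra K[X] D] [IsScalarTower K K[X] D]
    (S : Subalgebra K D) (h : algebraMap K[X] D X ∈ S) (p : K[X]) : algebraMap K[X] D p ∈ S := by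
  induction p using Polynomial.induction_on' with
  | add p q hp hq =>
    rw [map_add]
    exact S.add_mem hp hq
  | monomial n c =>
    rw [← C_mul_X_pow_eq_monomial, map_mul, map_pow]
    refine S.mul_mem ?_ (S.pow_mem h n)
    have h1 : algebraMap K[X] D (C c) = algebraMap K D c := by
      rw [IsScalarTower.algebraMap_apply K K[X] D]
      rfl
    rw [h1]
    exact S.algebraMap_mem c

theorem e0r {K : Type} [Field K] (a0 b0 : K) :
    ∃ (D : Type) (_ : CommRing D) (_ : IsDomain D) (_ : Algebra K D) (_ : Algebra K[X] D) (_ : IsScalarTower K K[X] D)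
      (f : Module.Basis (Fin 2) K[X] D) (x y : D), StB f 3 ∧ y ^ 2 = x ^ 3 + algebraMap K D a0 * x + algebraMap K D b0 ∧
      Algebra.adjoin K {x, y} = ⊤ ∧ ∀ (F : Type) [Field F] [Algebra K F] (x' y' : F),
        y' ^ 2 = x' ^ 3 + algebraMap K F a0 * x' + algebraMap K F b0 → ∃ p : D →ₐ[K] F, p x = x' ∧ p y = y' := by
  classical
  let W := e0w a0 b0
  let f : Module.Basis (Fin 2) K[X] W.CoordinateRing := WeierstrassCurve.Affine.CoordinateRing.basis W
  let y : W.CoordinateRing := WeierstrassCurve.Affine.CoordinateRing.mk W X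
  have hf0 : f 0 = 1 := WeierstrassCurve.Affine.CoordinateRing.basis_zero
  have hf1 : f 1 = y := WeierstrassCurve.Affine.CoordinateRing.basis_one
  have key : y ^ 2 = algebraMap K[X] W.CoordinateRing (X ^ 3 + C a0 * X + C b0) := by
    have key : ∀ g : K[X], W.polynomial = X ^ 2 - C g → y ^ 2 = algebraMap K[X] W.CoordinateRing g := by
      intro g hg
      have h2 : AdjoinRoot.mk W.polynomial (X ^ 2 - C g) = 0 := by
        rw [← hg]
        exact AdjoinRoot.mk_self
      rw [map_sub, map_pow, AdjoinRoot.mk_C] at h2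
      exact sub_eq_zero.mp h2
    exact key _ (e0_pol a0 b0)
  have hsc : ∀ c : K, algebraMap K[X] W.CoordinateRing (C c) = algebraMap K W.CoordinateRing c := fun c => rfl
  refine ⟨W.CoordinateRing, inferInstance, inferInstance, inferInstance, inferInstance, inferInstance, f,
    algebraMap K[X] W.CoordinateRing X, y, ?_, ?_, ?_, ?_⟩
  · have h0 : ∀ j l, (f.repr (f j) l).natDegree ≤ 3 := by
      intro j l
      rw [Module.Basis.repr_self, Finsupp.single_apply]
      split_ifs
      · rw [natDegree_one]
        exact Nat.zero_le _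
      · rw [natDegree_zero]
        exact Nat.zero_le _
    intro i j l
    match i, j with
    | 0, j =>
      rw [hf0, one_mul]
      exact h0 j l
    | 1, 0 =>
      rw [hf0, mul_one]
      exact h0 1 l
    | 1, 1 =>
      have h1 : f 1 * f 1 = (X ^ 3 + C a0 * X + C b0 : K[X]) • f 0 := by
        rw [hf0, hf1, ← pow_two, key, Algebra.algebraMap_eq_smul_one]
      rw [h1, map_smul, Module.Basis.repr_self, Finsupp.smul_apply, Finsupp.single_apply]
      split_ifs
      · rw [smul_eq_mul, mul_one]
        compute_degree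
      · rw [smul_zero, natDegree_zero]
        exact Nat.zero_le _
  · rw [key, map_add, map_add, map_mul, map_pow, hsc, hsc]
  · rw [eq_top_iff]
    rintro d -
    obtain ⟨p, q, rfl⟩ := WeierstrassCurve.Affine.CoordinateRing.exists_smul_basis_eq d
    have hX : algebraMap K[X] W.CoordinateRing X ∈ Algebra.adjoin K {algebraMap K[X] W.CoordinateRing X, y} :=
      Algebra.subset_adjoin (Or.inl rfl)
    have hY : y ∈ Algebra.adjoin K {algebraMap K[X] W.CoordinateRing X, y} :=
      Algebra.subset_adjoin (Or.inr rfl)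
    refine Subalgebra.add_mem _ ?_ ?_
    · rw [← Algebra.algebraMap_eq_smul_one]
      exact e0_mem _ hX p
    · rw [Algebra.smul_def]
      exact Subalgebra.mul_mem _ (e0_mem _ hX q) hY
  · intro F _ _ x' y' h
    let i : K[X] →+* F := (aeval x' : K[X] →ₐ[K] F).toRingHom
    have hi : ∀ g, i g = aeval x' g := fun g => rfl
    have hr : eval₂ i y' W.polynomial = 0 := by
      have h1 : W.polynomial = X ^ 2 - C (X ^ 3 + C a0 * X + C b0) := e0_pol a0 b0
      rw [h1, eval₂_sub, eval₂_pow, eval₂_X, eval₂_C, hi, map_add, map_add, map_mul, map_pow, aeval_X, aeval_C, aeval_C,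
        h, sub_self]
    let p : W.CoordinateRing →+* F := AdjoinRoot.lift i y' hr
    refine ⟨{ p with commutes' := fun c => ?_ }, ?_, ?_⟩
    · change p (AdjoinRoot.of W.polynomial (C c)) = algebraMap K F c
      rw [AdjoinRoot.lift_of, hi, aeval_C]
    · change p (AdjoinRoot.of W.polynomial X) = x'
      rw [AdjoinRoot.lift_of, hi, aeval_X]
    · change p (AdjoinRoot.root W.polynomial) = y'
      exact AdjoinRoot.lift_root hr

end H19.ES
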