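import Pool.Agent.H19.EI.Cusp
import Pool.Agent.H19.ES.Hom
import Pool.Agent.H67.KH.Val

/-! # EI.TwF : the functional on `E₀ × Spec A'` (about 200 lines)

`tw` maps the point `(b, X, Y)` of `E₀ × Spec A'` (`Y² = X³ + a₀X + b₀`) to the point `(b ∘ i, X b(u)², Y b(u)³)` of `S` (`i a = a₀u⁴`, `i b = b₀u⁶`).
`twf`: `Ψ.cl s = Φ.cl (fun j => tw (s j))` if all `s j` are on `E₀ × Spec A'`, and `0` otherwise (classical; the values at tuples not on the surface do not matter, but `Lim1` needs that the reduction of a tuple on the surface is on the surface: clear).  Relation: for `S` take `S.map (fun s j => tw (s j))`: on the surface, Galois-stable.  Limits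
(`Lim1 Ψ.cl π s c → Lim1 Φ.cl π (tw ∘ s) c`, for `s` on `E₀ × Spec A'`): if `s` reduces to `p` then `tw ∘ s` reduces to `tw ∘ p`.  If `s` is not integral then `c = 0` and one must show that `tw ∘ s` has the limit `0`: if `tw ∘ s` is not integral: clear.  If it is integral, let `s j` be not integral: `(s j).b` is integral because `(s j).b ∘ i` is
(`A'` is integral over `A`: `mem_of_root`), so `X` or `Y` is not integral, hence `X ∉ V` (`Y² = X³ + a₀X + b₀`, and if `X ∈ V` then `Y ∈ V`); `X b(u)² ∈ V`, so `b(u)² = (X b(u)²) X⁻¹` reduces to `0` (`Rd.inv_zero`), so `b(u)` reduces to `0` and the reduction of `tw (s j)` lies over a point with `a = b = 0`: its class is `0` by `cusp`.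
`tw_surj`: for `P` on `S` lift `P.b` to `b' : A' → K` (`lift_hom`); if `b' u ≠ 0` take `(b', P.x / b'(u)², P.y / b'(u)³)`; if `b' u = 0` then `P.b a = P.b b = 0`. -/

namespace H19.ES

open H68.BB

variable {K A A' : Type} [Field K] [CommRing A] [Algebra K A] [CommRing A'] [Algebra K A']

/-- the point of `S` given by a point of `E₀ × Spec A'` -/
noncomputable def tw {F : Type} [Field F] [Algebra K F] (i : A →ₐ[K] A') (u : A') (P : Pt K A' F) : Pt K A F :=
  ⟨P.b.comp i, P.x * P.b u ^ 2, P.y * P.b u ^ 3⟩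

private theorem twf_map {F F' : Type} [Field F] [Algebra K F] [Field F'] [Algebra K F'] (i : A →ₐ[K] A') (u : A')
    (f : F →ₐ[K] F') (P : Pt K A' F) : (tw i u P).map f = tw i u (P.map f) := by
  refine Pt.ext ?_ ?_ ?_
  · rfl
  · change f (P.x * P.b u ^ 2) = f P.x * f (P.b u) ^ 2
    rw [map_mul, map_pow]
  · change f (P.y * P.b u ^ 3) = f P.y * f (P.b u) ^ 3
    rw [map_mul, map_pow]

private theorem twf_on {F : Type} [Field F] [Algebra K F] {i : A →ₐ[K] A'} {a b : A} {u : A'} {a0 b0 : K}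
    (ha : i a = algebraMap K A' a0 * u ^ 4) (hb : i b = algebraMap K A' b0 * u ^ 6) {P : Pt K A' F}
    (hP : OnS (algebraMap K A' a0) (algebraMap K A' b0) P) : OnS a b (tw i u P) := by
  have h1 : P.y ^ 2 = P.x ^ 3 + P.b (algebraMap K A' a0) * P.x + P.b (algebraMap K A' b0) := hP
  change (P.y * P.b u ^ 3) ^ 2 = (P.x * P.b u ^ 2) ^ 3 + P.b (i a) * (P.x * P.b u ^ 2) + P.b (i b)
  rw [ha, hb, map_mul, map_mul, map_pow, map_pow]
  linear_combination (P.b u) ^ 6 * h1

private theorem twf_sp {π : Place K (Om K)} (i : A →ₐ[K] A') (u : A') {P : Pt K A' (Om K)} {p : Pt K A' K}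
    (h : Sp π P p) : Sp π (tw i u P) (tw i u p) :=
  ⟨fun r => h.1 (i r), h.2.1.mul ((h.1 u).pow 2), h.2.2.mul ((h.1 u).pow 3)⟩

private theorem twf_red_on {π : Place K (Om K)} {a b : A} {P : Pt K A (Om K)} {p : Pt K A K} (h : Sp π P p)
    (hP : OnS a b P) : OnS a b p := by
  have h1 : Rd π.V π.φ (P.y ^ 2) (p.y ^ 2) := h.2.2.pow 2
  have h2 : Rd π.V π.φ (P.x ^ 3 + P.b a * P.x + P.b b) (p.x ^ 3 + p.b a * p.x + p.b b) :=
    ((h.2.1.pow 3).add ((h.1 a).mul h.2.1)).add (h.1 b)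
  have h3 : P.y ^ 2 = P.x ^ 3 + P.b a * P.x + P.b b := hP
  rw [h3] at h1
  exact h1.unique h2

/-- a point of `E₀ × Spec A'` which is not integral while its image is: the image reduces to a point with `a = b = 0` -/
private theorem twf_zero [IsAlgClosed K] {i : A →ₐ[K] A'} (hint : i.toRingHom.IsIntegral) {a b : A} {u : A'} {a0 b0 : K}
    (ha : i a = algebraMap K A' a0 * u ^ 4) (hb : i b = algebraMap K A' b0 * u ^ 6) {π : Place K (Om K)}
    {P : Pt K A' (Om K)} (hP : OnS (algebraMap K A' a0) (algebraMap K A' b0) P) (hn : ¬ Int π P) {q : Pt K A K}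
    (hq : Sp π (tw i u P) q) : q.b a = 0 ∧ q.b b = 0 := by
  have := π.isLocal
  have hbV : ∀ r : A, P.b (i r) ∈ π.V := fun r => (hq.1 r).mem
  have hdV : ∀ d : A', P.b d ∈ π.V := by
    intro d
    obtain ⟨f, hf, hf0⟩ := hint d
    refine H67.KH.mem_of_root (p := f.map ((P.b : A' →+* Om K).comp i.toRingHom)) (fun j => ?_) (hf.map _) ?_
    · rw [Polynomial.coeff_map]
      exact hbV _
    · rw [Polynomial.IsRoot.def, Polynomial.eval_map]
      have h1 := congrArg (P.b : A' →+* Om K) hf0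
      rw [Polynomial.hom_eval₂, map_zero] at h1
      exact h1
  have hcc : ∀ c : K, P.b (algebraMap K A' c) = algebraMap K (Om K) c := fun c => P.b.commutes c
  have hE : P.y ^ 2 = P.x ^ 3 + algebraMap K (Om K) a0 * P.x + algebraMap K (Om K) b0 := by
    have h1 : P.y ^ 2 = P.x ^ 3 + P.b (algebraMap K A' a0) * P.x + P.b (algebraMap K A' b0) := hP
    rwa [hcc, hcc] at h1
  have hx : P.x ∉ π.V := by
    intro hx
    have hy2 : P.y ^ 2 ∈ π.V := by
      rw [hE]
      exact add_mem (add_mem (pow_mem hx 3) (mul_mem (π.const a0).choose hx)) (π.const b0).choose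
    refine hn ⟨hdV, hx, ?_⟩
    by_contra hy
    have h1 := (π.V.mem_or_inv_mem P.y).resolve_left hy
    have h2 := mul_mem hy2 h1
    have hy0 : P.y ≠ 0 := fun h => hy (by rw [h]; exact π.V.zero_mem)
    rw [pow_two, mul_assoc, mul_inv_cancel₀ hy0, mul_one] at h2
    exact hy h2
  have hx0 : P.x ≠ 0 := fun h => hx (by rw [h]; exact π.V.zero_mem)
  have hu2 : Rd π.V π.φ (P.b u ^ 2) 0 := by
    have h1 : Rd π.V π.φ (P.x * P.b u ^ 2) q.x := hq.2.1
    have h2 := h1.mul (Rd.inv_zero (φ := π.φ) hx)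
    rw [mul_zero] at h2
    have h3 : P.x * P.b u ^ 2 * P.x⁻¹ = P.b u ^ 2 := by
      field_simp
    rwa [h3] at h2
  have key : ∀ (c : A) (c0 : K) (m : ℕ), i c = algebraMap K A' c0 * u ^ (2 * (m + 1)) → q.b c = 0 := by
    intro c c0 m hc
    have h1 : Rd π.V π.φ (P.b (i c)) (q.b c) := hq.1 c
    rw [hc, map_mul, map_pow, hcc, pow_mul] at h1
    have hc0 : Rd π.V π.φ (algebraMap K (Om K) c0) c0 := π.const c0
    have h2 : Rd π.V π.φ (algebraMap K (Om K) c0 * (P.b u ^ 2) ^ (m + 1)) (c0 * 0 ^ (m + 1)) :=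
      hc0.mul (hu2.pow (m + 1))
    rw [h1.unique h2, zero_pow (Nat.succ_ne_zero m), mul_zero]
  exact ⟨key a a0 1 ha, key b b0 2 hb⟩

theorem twf [IsAlgClosed K] {G : Type} [AddCommGroup G] {i : A →ₐ[K] A'} (hint : i.toRingHom.IsIntegral) {a b : A} {u : A'}
    {a0 b0 : K} (ha : i a = algebraMap K A' a0 * u ^ 4) (hb : i b = algebraMap K A' b0 * u ^ 6) {n : ℕ}
    (Φ : Fnl (OnS (K := K) a b) n G) :
    ∃ Ψ : Fnl (OnS (K := K) (algebraMap K A' a0) (algebraMap K A' b0)) n G,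
      ∀ s, (∀ j, OnS (algebraMap K A' a0) (algebraMap K A' b0) (s j)) → Ψ.cl s = Φ.cl (fun j => tw i u (s j)) := by
  have key : ∀ (π : Place K (Om K)) (s : Fin n → Pt K A' (Om K)) (c : G),
      (∀ j, OnS (algebraMap K A' a0) (algebraMap K A' b0) (s j)) →
      Lim1 (fun p => Φ.cl (fun j => tw i u (p j))) π s c → Lim1 Φ.cl π (fun j => tw i u (s j)) c := by
    intro π s c hs hc
    rcases hc with ⟨p, hp, rfl⟩ | ⟨⟨j, hj⟩, rfl⟩
    · exact Or.inl ⟨fun j => tw i u (p j), fun j => twf_sp i u (hp j), rfl⟩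
    · by_cases hI : ∀ l, Int π (tw i u (s l))
      · choose q hq using fun l => (hI l).exists_Sp
        refine Or.inl ⟨q, hq, ?_⟩
        obtain ⟨h1, h2⟩ := twf_zero hint ha hb (hs j) hj (hq j)
        exact (cusp Φ q (fun l => twf_red_on (hq l) (twf_on ha hb (hs l))) j h1 h2).symm
      · push Not at hI
        exact Or.inr ⟨hI, rfl⟩
  have key2 : ∀ (π : Place K (Om K)) (S : Multiset (Fin n → Pt K A' (Om K))) (c : G),
      (∀ s ∈ S, ∀ j, OnS (algebraMap K A' a0) (algebraMap K A' b0) (s j)) →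
      Lim (fun p => Φ.cl (fun j => tw i u (p j))) π S c →
      Lim Φ.cl π (S.map (fun s j => tw i u (s j))) c := by
    rintro π S c hS ⟨C, hC, rfl⟩
    refine ⟨C, ?_, rfl⟩
    rw [Multiset.rel_map_left]
    exact hC.mono fun q hq d _ hd => key π q d (hS q hq) hd
  refine ⟨⟨fun p => Φ.cl (fun j => tw i u (p j)), fun S π π' c c' hS hG hc hc' => ?_⟩, fun _ _ => rfl⟩
  refine Φ.rel (S.map (fun s j => tw i u (s j))) π π' c c' ?_ ?_ (key2 π S c hS hc) (key2 π' S c' hS hc')
  · intro t ht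
    obtain ⟨q, hq, rfl⟩ := Multiset.mem_map.1 ht
    exact fun j => twf_on ha hb (hS q hq j)
  · intro σ
    rw [Multiset.map_map]
    have e1 : Multiset.map (gal σ ∘ fun (s : Fin n → Pt K A' (Om K)) j => tw i u (s j)) S =
        Multiset.map ((fun (s : Fin n → Pt K A' (Om K)) j => tw i u (s j)) ∘ gal σ) S :=
      Multiset.map_congr rfl fun q _ => funext fun j => twf_map i u _ (q j)
    rw [e1, ← Multiset.map_map, hG σ]

theorem tw_surj [IsAlgClosed K] {i : A →ₐ[K] A'} (hi : Function.Injective i) (hint : i.toRingHom.IsIntegral) {a b : A} {u : A'}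
    {a0 b0 : K} (ha : i a = algebraMap K A' a0 * u ^ 4) (hb : i b = algebraMap K A' b0 * u ^ 6) (P : Pt K A K)
    (hP : OnS a b P) : (P.b a = 0 ∧ P.b b = 0) ∨
      ∃ Q : Pt K A' K, OnS (algebraMap K A' a0) (algebraMap K A' b0) Q ∧ tw i u Q = P := by
  obtain ⟨b', hb'⟩ := lift_hom i hi hint P.b
  have hcc : ∀ c : K, b' (algebraMap K A' c) = c := fun c => b'.commutes c
  have hPa : P.b a = a0 * b' u ^ 4 := by
    rw [← hb', AlgHom.comp_apply, ha, map_mul, map_pow, hcc]
  have hPb : P.b b = b0 * b' u ^ 6 := by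
    rw [← hb', AlgHom.comp_apply, hb, map_mul, map_pow, hcc]
  by_cases hu : b' u = 0
  · left
    rw [hPa, hPb, hu]
    exact ⟨by ring, by ring⟩
  · right
    refine ⟨⟨b', P.x / b' u ^ 2, P.y / b' u ^ 3⟩, ?_, ?_⟩
    · have h1 : P.y ^ 2 = P.x ^ 3 + P.b a * P.x + P.b b := hP
      change (P.y / b' u ^ 3) ^ 2 = (P.x / b' u ^ 2) ^ 3 + b' (algebraMap K A' a0) * (P.x / b' u ^ 2) +
        b' (algebraMap K A' b0)
      rw [hcc, hcc, div_pow, h1, hPa, hPb]
      field_simp
    · refine Pt.ext hb' ?_ ?_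
      · change P.x / b' u ^ 2 * b' u ^ 2 = P.x
        field_simp
      · change P.y / b' u ^ 3 * b' u ^ 3 = P.y
        field_simp

end H19.ES
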