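import Pool.Agent.H19.EI.IsoU
import Pool.Agent.H19.EI.TwF

/-! # EI.IsoA : the theorem for isotrivial surfaces, functional form, uniform (proved from isoU, twf, tw_surj, cusp) -/

namespace H19.ES

open H68.BB Polynomial

theorem isoA (m s0 : ℕ) : ∃ k0 : ℕ, ∀ {K A A' : Type} [Field K] [IsAlgClosed K] [CharZero K] [CommRing A] [Algebra K A]
    [CommRing A'] [IsDomain A'] [Algebra K A'] [Algebra K[X] A'] [IsScalarTower K K[X] A']
    (f : Module.Basis (Fin m) K[X] A'), StB f s0 → ∀ {i : A →ₐ[K] A'}, Function.Injective i → i.toRingHom.IsIntegral →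
    ∀ {a b : A} {u : A'} {a0 b0 : K}, i a = algebraMap K A' a0 * u ^ 4 → i b = algebraMap K A' b0 * u ^ 6 →
    ∀ k : ℕ, k0 ≤ k → ∀ (G : Type) [AddCommGroup G], TF G → ∀ Φ : Fnl (OnS (K := K) a b) k G,
    ∀ P : Fin k → Pt K A K, (∀ j, OnS a b (P j)) → altSum Φ.cl P = 0 := by
  obtain ⟨k0, h⟩ := isoU m s0
  refine ⟨k0, ?_⟩
  intro K A A' _ _ _ _ _ _ _ _ _ _ f hf i hi hint a b u a0 b0 ha hb k hk G _ tf Φ P hP
  by_cases hc : ∃ j, (P j).b a = 0 ∧ (P j).b b = 0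
  · obtain ⟨j, hja, hjb⟩ := hc
    unfold altSum
    refine Finset.sum_eq_zero fun σ _ => ?_
    rw [cusp Φ (P ∘ σ) (fun l => hP _) (σ⁻¹ j) (by simpa using hja) (by simpa using hjb), smul_zero]
  · push Not at hc
    have hQ : ∀ j, ∃ Q : Pt K A' K, OnS (algebraMap K A' a0) (algebraMap K A' b0) Q ∧ tw i u Q = P j := by
      intro j
      rcases tw_surj hi hint ha hb (P j) (hP j) with h1 | h1
      · exact absurd h1.2 (hc j h1.1)
      · exact h1
    choose Q hQ1 hQ2 using hQ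
    obtain ⟨Ψ, hΨ⟩ := twf hint ha hb Φ
    have h1 := h f hf a0 b0 k hk G tf Ψ Q hQ1
    rw [← h1]
    unfold altSum
    refine Finset.sum_congr rfl fun σ _ => ?_
    rw [hΨ (Q ∘ σ) (fun j => hQ1 _)]
    congr 2
    funext j
    exact (hQ2 (σ j)).symm

end H19.ES
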