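import Pool.Agent.H19.EI.TwF

/-! # EI.IsoL : isotrivial surfaces, algebra (about 120 lines)

`Ω' = AlgebraicClosure (FractionRing A)`.  Let `p a³ + q b² = 0` with `(p, q) ≠ (0, 0)`.  If `a = 0`: `b ≠ 0`, `u` a sixth root of `b`, `a0 = 0`, `b0 = 1`.  If `a ≠ 0`: `q ≠ 0` (otherwise `p a³ = 0`), `b² = -(p/q) a³`; `u` a fourth root of `a`; `b² = -(p/q) u¹²`, so `b = b0 u⁶` with `b0 ∈ K`, `b0² = -(p/q)` (`K` algebraically closed,
`Ω'` a field); `a0 = 1`.  `A' = A[u] ⊆ Ω'`: a domain, finite over `A` (`u` is integral), so finite over `K[X]`. -/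

namespace H19.ES

open H68.BB Polynomial

/-- the field part -/
private theorem isoL_field {K A F : Type} [Field K] [IsAlgClosed K] [CommRing A] [IsDomain A] [Algebra K A] [Field F]
    [IsAlgClosed F] [Algebra A F] [Algebra K F] [IsScalarTower K A F] (hA : Function.Injective (algebraMap A F)) {a b : A}
    (hj : ¬ ∀ p q : K, algebraMap K A p * a ^ 3 + algebraMap K A q * b ^ 2 = 0 → p = 0 ∧ q = 0) :
    ∃ (u : F) (a0 b0 : K), (¬ (a = 0 ∧ b = 0) → u ≠ 0) ∧ IsIntegral A u ∧
      algebraMap A F a = algebraMap K F a0 * u ^ 4 ∧ algebraMap A F b = algebraMap K F b0 * u ^ 6 := by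
  classical
  have hint : ∀ (u : F) (c : A) (n : ℕ), n ≠ 0 → u ^ n = algebraMap A F c → IsIntegral A u := by
    intro u c n hn h
    refine ⟨X ^ n - C c, monic_X_pow_sub_C c hn, ?_⟩
    simp [h]
  have hne : ∀ (u : F) (c : A) (n : ℕ), n ≠ 0 → u ^ n = algebraMap A F c → c ≠ 0 → u ≠ 0 := by
    intro u c n hn h hc h0
    rw [h0, zero_pow hn] at h
    exact hc (hA (by rw [← h, map_zero]))
  by_cases ha : a = 0
  · obtain ⟨u, hu⟩ := IsAlgClosed.exists_pow_nat_eq (algebraMap A F b) (n := 6) (by norm_num)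
    refine ⟨u, 0, 1, fun h => hne u b 6 (by norm_num) hu fun hb => h ⟨ha, hb⟩, hint u b 6 (by norm_num) hu, ?_, ?_⟩
    · rw [ha, map_zero, map_zero, zero_mul]
    · rw [map_one, one_mul, hu]
  · push Not at hj
    obtain ⟨p, q, hpq, hn⟩ := hj
    have hinjK : Function.Injective (algebraMap K A) := (algebraMap K A).injective
    have hq : q ≠ 0 := by
      intro hq
      rw [hq, map_zero, zero_mul, add_zero] at hpq
      rcases mul_eq_zero.1 hpq with h | h
      · have hp : p = 0 := hinjK (by rw [h, map_zero])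
        exact hn hp hq
      · exact ha (eq_zero_of_pow_eq_zero h)
    obtain ⟨u, hu⟩ := IsAlgClosed.exists_pow_nat_eq (algebraMap A F a) (n := 4) (by norm_num)
    obtain ⟨r, hr⟩ := IsAlgClosed.exists_pow_nat_eq (-(p / q)) (n := 2) (by norm_num)
    have hq' : algebraMap K F q ≠ 0 := fun h => hq ((algebraMap K F).injective (by rw [h, map_zero]))
    have h1 : algebraMap K F p * algebraMap A F a ^ 3 + algebraMap K F q * algebraMap A F b ^ 2 = 0 := by
      have h2 := congrArg (algebraMap A F) hpq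
      simp only [map_add, map_mul, map_pow, map_zero] at h2
      rw [← IsScalarTower.algebraMap_apply K A F, ← IsScalarTower.algebraMap_apply K A F] at h2
      exact h2
    have h3 : algebraMap K F r ^ 2 * algebraMap K F q = -algebraMap K F p := by
      rw [← map_pow, hr, ← map_mul, ← map_neg]
      congr 1
      field_simp
    have h4 : algebraMap A F b ^ 2 = (algebraMap K F r * u ^ 6) ^ 2 := by
      apply mul_left_cancel₀ hq'
      rw [← hu] at h1
      linear_combination h1 - u ^ 12 * h3
    refine ⟨u, 1, if algebraMap A F b = algebraMap K F r * u ^ 6 then r else -r, fun _ => hne u a 4 (by norm_num) hu ha,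
      hint u a 4 (by norm_num) hu, ?_, ?_⟩
    · rw [map_one, one_mul, hu]
    · split_ifs with h
      · exact h
      · rcases sq_eq_sq_iff_eq_or_eq_neg.1 h4 with h5 | h5
        · exact absurd h5 h
        · rw [h5, map_neg, neg_mul]

/-- without the hypothesis on the discriminant -/
theorem isoL' {K A : Type} [Field K] [IsAlgClosed K] [CharZero K] [CommRing A] [IsDomain A] [Algebra K A] [Algebra K[X] A]
    [IsScalarTower K K[X] A] [Module.Finite K[X] A] [FaithfulSMul K[X] A] {a b : A}
    (hj : ¬ ∀ p q : K, algebraMap K A p * a ^ 3 + algebraMap K A q * b ^ 2 = 0 → p = 0 ∧ q = 0) :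
    ∃ (A' : Type) (_ : CommRing A') (_ : IsDomain A') (_ : Algebra K A') (_ : Algebra K[X] A') (_ : IsScalarTower K K[X] A')
      (_ : Module.Finite K[X] A') (_ : FaithfulSMul K[X] A') (i : A →ₐ[K] A') (u : A') (a0 b0 : K), Function.Injective i ∧
      i.toRingHom.IsIntegral ∧ (¬ (a = 0 ∧ b = 0) → u ≠ 0) ∧ i a = algebraMap K A' a0 * u ^ 4 ∧ i b = algebraMap K A' b0 * u ^ 6 := by
  classical
  have hAF : Function.Injective (algebraMap A (AlgebraicClosure (FractionRing A))) := by
    rw [IsScalarTower.algebraMap_eq A (FractionRing A) (AlgebraicClosure (FractionRing A))]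
    exact (algebraMap (FractionRing A) (AlgebraicClosure (FractionRing A))).injective.comp
      (IsFractionRing.injective A (FractionRing A))
  obtain ⟨u, a0, b0, hu, hi, h1, h2⟩ := isoL_field hAF hj
  let A' := Algebra.adjoin A {u}
  have hu' : u ∈ A' := Algebra.subset_adjoin rfl
  have hval : Function.Injective (algebraMap A' (AlgebraicClosure (FractionRing A))) := Subtype.val_injective
  have hAA' : Function.Injective (algebraMap A A') := by
    intro x y hxy
    apply hAF
    exact congrArg Subtype.val hxy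
  have hfin : Module.Finite A A' := by
    have h := hi.fg_adjoin_singleton
    exact Module.Finite.iff_fg.2 h
  have hfin2 : Module.Finite K[X] A' := Module.Finite.trans A A'
  have hfs : FaithfulSMul K[X] A' := by
    rw [faithfulSMul_iff_algebraMap_injective, IsScalarTower.algebraMap_eq K[X] A A']
    exact hAA'.comp (FaithfulSMul.algebraMap_injective K[X] A)
  refine ⟨A', inferInstance, inferInstance, inferInstance, inferInstance, inferInstance, hfin2, hfs,
    IsScalarTower.toAlgHom K A A', ⟨u, hu'⟩, a0, b0, hAA', ?_, ?_, ?_, ?_⟩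
  · intro x
    exact (Algebra.IsIntegral.isIntegral (R := A) x)
  · intro h0 h
    exact hu h0 (congrArg Subtype.val h)
  · apply hval
    exact h1
  · apply hval
    exact h2

theorem isoL {K A : Type} [Field K] [IsAlgClosed K] [CharZero K] [CommRing A] [IsDomain A] [Algebra K A] [Algebra K[X] A]
    [IsScalarTower K K[X] A] [Module.Finite K[X] A] [FaithfulSMul K[X] A] {a b : A} (hd : 4 * a ^ 3 + 27 * b ^ 2 ≠ 0)
    (hj : ¬ ∀ p q : K, algebraMap K A p * a ^ 3 + algebraMap K A q * b ^ 2 = 0 → p = 0 ∧ q = 0) :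
    ∃ (A' : Type) (_ : CommRing A') (_ : IsDomain A') (_ : Algebra K A') (_ : Algebra K[X] A') (_ : IsScalarTower K K[X] A')
      (_ : Module.Finite K[X] A') (_ : FaithfulSMul K[X] A') (i : A →ₐ[K] A') (u : A') (a0 b0 : K), Function.Injective i ∧
      i.toRingHom.IsIntegral ∧ u ≠ 0 ∧ i a = algebraMap K A' a0 * u ^ 4 ∧ i b = algebraMap K A' b0 * u ^ 6 := by
  obtain ⟨A', i1, i2, i3, i4, i5, i6, i7, i, u, a0, b0, h1, h2, h3, h4, h5⟩ := isoL' hj
  refine ⟨A', i1, i2, i3, i4, i5, i6, i7, i, u, a0, b0, h1, h2, h3 ?_, h4, h5⟩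
  rintro ⟨ha, hb⟩
  apply hd
  rw [ha, hb]
  ring

end H19.ES
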