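import Pool.Agent.H19.EI.SymZ
import Pool.Agent.H19.EI.E0R
import Pool.Agent.H25.SW.Main

/-! # EI.IsoU : the theorem for the product `E₀ × Spec A` (about 250 lines)

`n1` from `symZ 2 3` (for the ring `D` of `E₀`, `e0r`), `n2` from `symZ m s0` (for `A`); `k0 = (n1 - 1) * (n2 - 1) + 1`.  Let `P j = (b j, X j, Y j)`; `F σ τ := Φ.cl (fun j => ⟨b (τ j), X (σ j), Y (σ j)⟩)`; for permutations.
(A) for `I ⊆ Fin k` with `n1` elements, all `σ₁, σ₂, τ`: `∑ σ ∈ PJ I, F (σ₁ σ σ₂) τ = 0`: enumerate `I' = σ₂⁻¹ I` by `e : Fin n1 → Fin k`; the functional `Ψ : Fnl OnZ n1 G` over `D`, `Ψ.cl p = Φ.cl (the tuple with (b (τ (e l)), (p l).b x, (p l).b y) in the slot e l and the fixed points in the other slots)` (the relation: map the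
multisets; a homomorphism `p : D → Ω` is integral iff `p x`, `p y` are: `Algebra.adjoin K {x, y} = ⊤`; `slots` and a map of surfaces); `symZ` for `Ψ`.
(B) for `J` with `n2` elements, all `σ, τ₁, τ₂`: `∑ τ ∈ PJ J, F σ (τ₁ τ τ₂) = 0`: the same with `Spec A`: `Ψ.cl p = Φ.cl (the tuple with ((p l).b, X (σ (e l)), Y (σ (e l))) in the slot e l, …)`.
`x σ := ∑ ρ, sign ρ • F (σ ρ) ρ`.  By (A) the symmetrisers of `n1`-subsets kill `x` (on both sides); by (B), after the substitution `ρ' = (τ'⁻¹ σ τ') ρ`, the antisymmetrisers of `n2`-subsets kill `x`: `∑ σ ∈ PJ J, sign σ • x (τ σ τ') = ∑ ρ', sign ρ' • ∑ σ ∈ PJ J, F (τ τ' ρ') (τ'⁻¹ σ⁻¹ τ' ρ') = 0`.  `H25.SW.sw_mod` for the group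
`Perm (Fin k) → G` with `act σ F = fun ρ => F (ρ * σ)`, `g + 1 = n1`, `k + 1 = n2`: `x = 0`, in particular `x 1 = altSum Φ.cl P = 0`. -/

namespace H19.ES

open H68.BB Polynomial

private theorem iso_pj {k n : ℕ} (I : Finset (Fin k)) (hI : I.card = n) :
    ∃ (e : Fin n → Fin k) (s : Equiv.Perm (Fin n) → Equiv.Perm (Fin k)), Function.Injective e ∧
      (∀ i, i ∈ I → ∃ l, e l = i) ∧ (∀ π l, s π (e l) = e (π l)) ∧ (∀ π i, i ∉ I → s π i = i) ∧
      ∀ (G : Type) [AddCommGroup G] (g : Equiv.Perm (Fin k) → G), ∑ σ ∈ H25.SW.PJ I, g σ = ∑ π, g (s π) := by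
  classical
  let e0 : Fin n ≃ {x // x ∈ I} := (I.equivFinOfCardEq hI).symm
  refine ⟨fun l => (e0 l : Fin k), fun π => Equiv.Perm.ofSubtype (e0.permCongr π),
    fun l l' h => e0.injective (Subtype.ext h), fun i hi => ⟨e0.symm ⟨i, hi⟩, ?_⟩, fun π l => ?_, fun π i hi => ?_,
    fun G _ g => ?_⟩
  · show ((e0 (e0.symm ⟨i, hi⟩) : {x // x ∈ I}) : Fin k) = i
    rw [Equiv.apply_symm_apply]
  · rw [Equiv.Perm.ofSubtype_apply_coe, Equiv.permCongr_apply, Equiv.symm_apply_apply]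
  · exact Equiv.Perm.ofSubtype_apply_of_not_mem _ hi
  · have h1 : ∑ σ ∈ H25.SW.PJ I, g σ = ∑ σ : {f : Equiv.Perm (Fin k) // ∀ a, ¬ a ∈ I → f a = a}, g σ :=
      Finset.sum_subtype (H25.SW.PJ I)
      (fun σ => by unfold H25.SW.PJ; rw [Finset.mem_filter]; exact ⟨fun h => h.2, fun h => ⟨Finset.mem_univ _, h⟩⟩) g
    rw [h1]
    let E : Equiv.Perm (Fin n) ≃ {f : Equiv.Perm (Fin k) // ∀ a, ¬ a ∈ I → f a = a} :=
      (e0.permCongr).trans (Equiv.Perm.subtypeEquivSubtypePerm (fun x => x ∈ I))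
    exact (Fintype.sum_equiv E _ _ (fun π => rfl)).symm

private theorem iso_cst {K A : Type} [Field K] [CommRing A] [Algebra K A] (σ : Om K ≃ₐ[RatFunc K] Om K)
    (p : Pt K A K) : (cst' p).map (σ.toAlgHom.restrictScalars K) = cst' p := by
  refine Pt.ext ?_ ?_ ?_
  · apply AlgHom.ext
    intro r
    exact (σ.toAlgHom.restrictScalars K).commutes (p.b r)
  · exact (σ.toAlgHom.restrictScalars K).commutes p.x
  · exact (σ.toAlgHom.restrictScalars K).commutes p.y

/-- the symmetrised sum over some slots, the points of the slots parametrised by another curve -/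
private theorem iso_gen {K A D : Type} [Field K] [CommRing A] [Algebra K A] [CommRing D] [Algebra K D] {k n : ℕ}
    {G : Type} [AddCommGroup G] {On : Pt K A (Om K) → Prop} (Φ : Fnl On k G)
    (hsym : ∀ Ψ : Fnl (OnZ (K := K) (D := D)) n G, ∀ p : Fin n → (D →ₐ[K] K),
      ∑ π : Equiv.Perm (Fin n), Ψ.cl (fun l => ⟨p (π l), 0, 0⟩) = 0)
    (e : Fin n → Fin k) (he : Function.Injective e) (s : Fin k → Pt K A K) (hs : ∀ i, On (cst' (s i)))
    (T1 : Fin n → (D →ₐ[K] Om K) → Pt K A (Om K)) (T0 : Fin n → (D →ₐ[K] K) → Pt K A K)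
    (hTon : ∀ l q, On (T1 l q))
    (hTgal : ∀ (σ : Om K ≃ₐ[RatFunc K] Om K) l q, (T1 l q).map (σ.toAlgHom.restrictScalars K) =
      T1 l ((σ.toAlgHom.restrictScalars K).comp q))
    (hTsp : ∀ (π : Place K (Om K)) l q p, (∀ r : D, Rd π.V π.φ (q r) (p r)) → Sp π (T1 l q) (T0 l p))
    (hTint : ∀ (π : Place K (Om K)) l q, Int π (T1 l q) → ∀ r : D, q r ∈ π.V) (p : Fin n → (D →ₐ[K] K)) :
    ∑ π : Equiv.Perm (Fin n), Φ.cl (Function.extend e (fun l => T0 l (p (π l))) s) = 0 := by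
  let F : (Fin n → Pt K D (Om K)) → Fin k → Pt K A (Om K) := fun q =>
    Function.extend e (fun l => T1 l (q l).b) (fun i => cst' (s i))
  let f : (Fin n → Pt K D K) → Fin k → Pt K A K := fun q =>
    Function.extend e (fun l => T0 l (q l).b) s
  have h1 : ∀ q, ∀ i, On (F q i) := by
    intro q i
    by_cases hi : ∃ j, e j = i
    · obtain ⟨j, rfl⟩ := hi
      show On (Function.extend e _ _ (e j))
      rw [he.extend_apply]
      exact hTon _ _
    · show On (Function.extend e _ _ i)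
      rw [Function.extend_apply' _ _ _ hi]
      exact hs i
  have h2 : ∀ (σ : Om K ≃ₐ[RatFunc K] Om K) q, gal σ (F q) = F (gal σ q) := by
    intro σ q
    funext i
    show (Function.extend e (fun l => T1 l (q l).b) (fun i => cst' (s i)) i).map (σ.toAlgHom.restrictScalars K) =
      Function.extend e (fun l => T1 l ((σ.toAlgHom.restrictScalars K).comp (q l).b)) (fun i => cst' (s i)) i
    by_cases hi : ∃ j, e j = i
    · obtain ⟨j, rfl⟩ := hi
      rw [he.extend_apply, he.extend_apply]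
      exact hTgal σ j _
    · rw [Function.extend_apply' _ _ _ hi, Function.extend_apply' _ _ _ hi]
      exact iso_cst σ (s i)
  have h3 : ∀ (π : Place K (Om K)) q p, (∀ i, Sp π (q i) (p i)) → ∀ i, Sp π (F q i) (f p i) := by
    intro π q p hqp i
    show Sp π (Function.extend e _ _ i) (Function.extend e _ _ i)
    by_cases hi : ∃ j, e j = i
    · obtain ⟨j, rfl⟩ := hi
      rw [he.extend_apply, he.extend_apply]
      exact hTsp π j _ _ (hqp j).1
    · rw [Function.extend_apply' _ _ _ hi, Function.extend_apply' _ _ _ hi]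
      exact Sp_cst' π (s i)
  have h4 : ∀ (π : Place K (Om K)) q, (∀ i, OnZ (q i)) → (∃ i, ¬ Int π (q i)) → ∃ i, ¬ Int π (F q i) := by
    rintro π q hz ⟨j, hj⟩
    refine ⟨e j, fun hint => hj ?_⟩
    have h5 : Int π (T1 j (q j).b) := by
      have h6 : Int π (Function.extend e (fun l => T1 l (q l).b) (fun i => cst' (s i)) (e j)) := hint
      rwa [he.extend_apply] at h6
    refine ⟨hTint π j _ h5, ?_, ?_⟩
    · rw [(hz j).1]
      exact π.V.zero_mem
    · rw [(hz j).2]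
      exact π.V.zero_mem
  have hl : ∀ (π : Place K (Om K)) (S : Multiset (Fin n → Pt K D (Om K))) (c : G), (∀ q ∈ S, ∀ i, OnZ (q i)) →
      Lim (fun p => Φ.cl (f p)) π S c → Lim Φ.cl π (S.map F) c := by
    rintro π S c hS ⟨C, hC, rfl⟩
    refine ⟨C, ?_, rfl⟩
    rw [Multiset.rel_map_left]
    refine hC.mono fun q hq d _ hd => ?_
    rcases hd with ⟨p, hp, rfl⟩ | ⟨hq', rfl⟩
    · exact Or.inl ⟨f p, h3 π q p hp, rfl⟩
    · exact Or.inr ⟨h4 π q (hS q hq) hq', rfl⟩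
  let Ψ : Fnl (OnZ (K := K) (D := D)) n G := ⟨fun p => Φ.cl (f p), fun S π π' c c' hS hG hc hc' => by
    refine Φ.rel (S.map F) π π' c c' ?_ ?_ (hl π S c hS hc) (hl π' S c' hS hc')
    · intro t ht
      obtain ⟨q, hq, rfl⟩ := Multiset.mem_map.1 ht
      exact h1 q
    · intro σ
      rw [Multiset.map_map]
      have e1 : Multiset.map (gal σ ∘ F) S = Multiset.map (F ∘ gal σ) S :=
        Multiset.map_congr rfl fun q _ => h2 σ q
      rw [e1, ← Multiset.map_map, hG σ]⟩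
  exact hsym Ψ p

private theorem iso_OnS {K A F : Type} [Field K] [CommRing A] [Algebra K A] [Field F] [Algebra K F] {a0 b0 : K}
    {P : Pt K A F} : OnS (algebraMap K A a0) (algebraMap K A b0) P ↔
      P.y ^ 2 = P.x ^ 3 + algebraMap K F a0 * P.x + algebraMap K F b0 := by
  unfold OnS
  rw [P.b.commutes, P.b.commutes]

private theorem iso_OnS_cst {K A : Type} [Field K] [CommRing A] [Algebra K A] {a b : A}
    {P : Pt K A K} (h : OnS a b P) : OnS a b (cst' P) := by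
  have h1 := congrArg (algebraMap K (Om K)) h
  rw [map_pow, map_add, map_add, map_mul, map_pow] at h1
  exact h1

theorem isoU (m s0 : ℕ) : ∃ k0 : ℕ, ∀ {K A : Type} [Field K] [IsAlgClosed K] [CharZero K] [CommRing A] [IsDomain A]
    [Algebra K A] [Algebra K[X] A] [IsScalarTower K K[X] A] (f : Module.Basis (Fin m) K[X] A), StB f s0 →
    ∀ (a0 b0 : K) (k : ℕ), k0 ≤ k → ∀ (G : Type) [AddCommGroup G], TF G →
    ∀ Φ : Fnl (OnS (K := K) (algebraMap K A a0) (algebraMap K A b0)) k G, ∀ P : Fin k → Pt K A K,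
      (∀ i, OnS (algebraMap K A a0) (algebraMap K A b0) (P i)) → altSum Φ.cl P = 0 := by
  classical
  obtain ⟨n1, hn1, H1⟩ := symZ 2 3
  obtain ⟨n2, hn2, H2⟩ := symZ m s0
  refine ⟨(n1 - 1) * (n2 - 1) + 1, ?_⟩
  intro K A _ _ _ _ _ _ _ _ f hf a0 b0 k hk G _ tf Φ P hP
  let F : Equiv.Perm (Fin k) → Equiv.Perm (Fin k) → G := fun σ τ =>
    Φ.cl (fun j => ⟨(P (τ j)).b, (P (σ j)).x, (P (σ j)).y⟩)
  have hPe : ∀ i, (P i).y ^ 2 = (P i).x ^ 3 + a0 * (P i).x + b0 := by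
    intro i
    have h1 := iso_OnS.1 (hP i)
    exact h1
  have hmix : ∀ i j, OnS (algebraMap K A a0) (algebraMap K A b0) (⟨(P i).b, (P j).x, (P j).y⟩ : Pt K A K) := by
    intro i j
    exact iso_OnS.2 (hPe j)
  -- symmetrisation of the points of the constant curve
  have hA : ∀ (I : Finset (Fin k)), I.card = n1 → ∀ σ₁ σ₂ τ : Equiv.Perm (Fin k),
      ∑ σ ∈ H25.SW.PJ I, F (σ₁ * σ * σ₂) τ = 0 := by
    intro I hI σ₁ σ₂ τ
    obtain ⟨D, _, _, _, _, _, fD, x, y, hSt, hxy, hadj, hlift⟩ := e0r a0 b0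
    obtain ⟨e, s, he, hIe, hse, hso, hsum⟩ := iso_pj I hI
    rw [hsum G (fun σ => F (σ₁ * σ * σ₂) τ)]
    choose p hpx hpy using fun l : Fin n1 => hlift K (P (σ₁ (e l))).x (P (σ₁ (e l))).y (hPe _)
    let e' : Fin n1 → Fin k := fun l => σ₂.symm (e l)
    have he' : Function.Injective e' := σ₂.symm.injective.comp he
    have h1 := iso_gen Φ (D := D) (fun Ψ p => H1 fD hSt G tf Ψ p) e' he'
      (fun i => ⟨(P (τ i)).b, (P (σ₁ (σ₂ i))).x, (P (σ₁ (σ₂ i))).y⟩)
      (fun i => iso_OnS_cst (hmix _ _))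
      (fun l q => ⟨(cst' (P (τ (e' l)))).b, q x, q y⟩) (fun l q => ⟨(P (τ (e' l))).b, q x, q y⟩)
      (fun l q => iso_OnS.2 (by
        have h2 := congrArg q hxy
        rw [map_pow, map_add, map_add, map_mul, map_pow, q.commutes, q.commutes] at h2
        exact h2))
      (fun σ l q => by
        have h2 := congrArg Pt.b (iso_cst σ (P (τ (e' l))))
        exact Pt.ext h2 rfl rfl)
      (fun π l q p hq => ⟨(Sp_cst' π (P (τ (e' l)))).1, hq x, hq y⟩)
      (fun π l q hi r => by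
        have hr : r ∈ Algebra.adjoin K {x, y} := by
          rw [hadj]
          trivial
        refine Algebra.adjoin_induction (p := fun r _ => q r ∈ π.V) ?_ ?_ ?_ ?_ hr
        · rintro z (rfl | hz)
          · exact hi.2.1
          · rw [Set.mem_singleton_iff.1 hz]
            exact hi.2.2
        · intro c
          show q (algebraMap K D c) ∈ π.V
          rw [q.commutes]
          exact (π.const c).choose
        · intro a b _ _ ha hb
          rw [map_add]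
          exact π.V.add_mem _ _ ha hb
        · intro a b _ _ ha hb
          rw [map_mul]
          exact π.V.mul_mem _ _ ha hb) p
    rw [← h1]
    refine Finset.sum_congr rfl fun π _ => ?_
    show Φ.cl _ = Φ.cl _
    congr 1
    funext j
    by_cases hj : ∃ l, e' l = j
    · obtain ⟨l, rfl⟩ := hj
      rw [he'.extend_apply]
      have h3 : (σ₁ * s π * σ₂) (e' l) = σ₁ (e (π l)) := by
        show σ₁ (s π (σ₂ (σ₂.symm (e l)))) = _
        rw [Equiv.apply_symm_apply, hse]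
      rw [h3, hpx, hpy]
    · rw [Function.extend_apply' _ _ _ hj]
      have h4 : σ₂ j ∉ I := by
        intro h
        obtain ⟨l, hl⟩ := hIe _ h
        exact hj ⟨l, by show σ₂.symm (e l) = j; rw [hl, Equiv.symm_apply_apply]⟩
      have h3 : (σ₁ * s π * σ₂) j = σ₁ (σ₂ j) := by
        show σ₁ (s π (σ₂ j)) = _
        rw [hso π _ h4]
      rw [h3]
  -- symmetrisation of the base points
  have hB : ∀ (J : Finset (Fin k)), J.card = n2 → ∀ σ τ₁ τ₂ : Equiv.Perm (Fin k),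
      ∑ τ ∈ H25.SW.PJ J, F σ (τ₁ * τ * τ₂) = 0 := by
    intro I hI σ τ₁ τ₂
    obtain ⟨e, s, he, hIe, hse, hso, hsum⟩ := iso_pj I hI
    rw [hsum G (fun τ => F σ (τ₁ * τ * τ₂))]
    let e' : Fin n2 → Fin k := fun l => τ₂.symm (e l)
    have he' : Function.Injective e' := τ₂.symm.injective.comp he
    have h1 := iso_gen Φ (D := A) (fun Ψ p => H2 f hf G tf Ψ p) e' he'
      (fun i => ⟨(P (τ₁ (τ₂ i))).b, (P (σ i)).x, (P (σ i)).y⟩)
      (fun i => iso_OnS_cst (hmix _ _))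
      (fun l q => ⟨q, (cst' (P (σ (e' l)))).x, (cst' (P (σ (e' l)))).y⟩)
      (fun l q => ⟨q, (P (σ (e' l))).x, (P (σ (e' l))).y⟩)
      (fun l q => iso_OnS.2 (by
        have h2 := congrArg (algebraMap K (Om K)) (hPe (σ (e' l)))
        rw [map_pow, map_add, map_add, map_mul, map_pow] at h2
        exact h2))
      (fun σ' l q => by
        have h2 := iso_cst σ' (P (σ (e' l)))
        have h3 := congrArg Pt.x h2
        have h4 := congrArg Pt.y h2
        exact Pt.ext rfl h3 h4)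
      (fun π l q p hq => ⟨hq, (Sp_cst' π (P (σ (e' l)))).2.1, (Sp_cst' π (P (σ (e' l)))).2.2⟩)
      (fun π l q hi r => hi.1 r) (fun l => (P (τ₁ (e l))).b)
    rw [← h1]
    refine Finset.sum_congr rfl fun π _ => ?_
    show Φ.cl _ = Φ.cl _
    congr 1
    funext j
    by_cases hj : ∃ l, e' l = j
    · obtain ⟨l, rfl⟩ := hj
      rw [he'.extend_apply]
      have h3 : (τ₁ * s π * τ₂) (e' l) = τ₁ (e (π l)) := by
        show τ₁ (s π (τ₂ (τ₂.symm (e l)))) = _
        rw [Equiv.apply_symm_apply, hse]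
      rw [h3]
    · rw [Function.extend_apply' _ _ _ hj]
      have h4 : τ₂ j ∉ I := by
        intro h
        obtain ⟨l, hl⟩ := hIe _ h
        exact hj ⟨l, by show τ₂.symm (e l) = j; rw [hl, Equiv.symm_apply_apply]⟩
      have h3 : (τ₁ * s π * τ₂) j = τ₁ (τ₂ j) := by
        show τ₁ (s π (τ₂ j)) = _
        rw [hso π _ h4]
      rw [h3]
  let x : Equiv.Perm (Fin k) → G := fun σ => ∑ ρ : Equiv.Perm (Fin k), (Equiv.Perm.sign ρ : ℤ) • F (σ * ρ) ρ
  have hx : x = 0 := by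
    refine H25.SW.sw_mod (g := n1 - 1) (k := n2 - 1) (m := k) (by omega) (A := Equiv.Perm (Fin k) → G) ?_
      (fun σ => { toFun := fun F ρ => F (ρ * σ), map_zero' := rfl, map_add' := fun _ _ => rfl }) ?_ ?_ x ?_ ?_
    · intro n z hn hz
      funext ρ
      exact tf n (z ρ) hn.ne' (congrFun hz ρ)
    · intro z
      funext ρ
      show z (ρ * 1) = z ρ
      rw [mul_one]
    · intro σ τ z
      funext ρ
      show z (ρ * (σ * τ)) = z (ρ * σ * τ)
      rw [mul_assoc]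
    · intro J τ hJ
      funext ρ'
      rw [Finset.sum_apply, Pi.zero_apply]
      show ∑ σ ∈ H25.SW.PJ J, (Equiv.Perm.sign σ : ℤ) • x (ρ' * (σ * τ)) = 0
      have h1 : ∀ σ : Equiv.Perm (Fin k), (Equiv.Perm.sign σ : ℤ) • x (ρ' * (σ * τ)) =
          ∑ ρ : Equiv.Perm (Fin k), (Equiv.Perm.sign ρ : ℤ) • F (ρ' * τ * ρ) (τ⁻¹ * σ⁻¹ * (τ * ρ)) := by
        intro σ
        show (Equiv.Perm.sign σ : ℤ) • ∑ ρ : Equiv.Perm (Fin k), (Equiv.Perm.sign ρ : ℤ) • F (ρ' * (σ * τ) * ρ) ρ = _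
        rw [Finset.smul_sum]
        refine Fintype.sum_equiv (Equiv.mulLeft (τ⁻¹ * σ * τ)) _ _ fun ρ => ?_
        rw [Equiv.coe_mulLeft, smul_smul]
        have e1 : ρ' * τ * (τ⁻¹ * σ * τ * ρ) = ρ' * (σ * τ) * ρ := by group
        have e2 : τ⁻¹ * σ⁻¹ * (τ * (τ⁻¹ * σ * τ * ρ)) = ρ := by group
        have e3 : (Equiv.Perm.sign (τ⁻¹ * σ * τ * ρ) : ℤ) = (Equiv.Perm.sign σ : ℤ) * (Equiv.Perm.sign ρ : ℤ) := by
          rw [map_mul, map_mul, map_mul, mul_comm (Equiv.Perm.sign τ⁻¹), mul_assoc (Equiv.Perm.sign σ), ← map_mul,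
            inv_mul_cancel, map_one, mul_one, Units.val_mul]
        rw [e1, e2, e3]
      rw [Finset.sum_congr rfl fun σ _ => h1 σ, Finset.sum_comm]
      refine Finset.sum_eq_zero fun ρ _ => ?_
      rw [← Finset.smul_sum]
      have h2 : ∑ σ ∈ H25.SW.PJ J, F (ρ' * τ * ρ) (τ⁻¹ * σ⁻¹ * (τ * ρ)) =
          ∑ σ ∈ H25.SW.PJ J, F (ρ' * τ * ρ) (τ⁻¹ * σ * (τ * ρ)) := by
        have hinv : ∀ σ ∈ H25.SW.PJ J, σ⁻¹ ∈ H25.SW.PJ J := by
          intro σ hσ
          unfold H25.SW.PJ at hσ ⊢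
          rw [Finset.mem_filter] at hσ ⊢
          refine ⟨Finset.mem_univ _, fun i hi => ?_⟩
          rw [Equiv.Perm.inv_eq_iff_eq]
          exact (hσ.2 i hi).symm
        refine Finset.sum_nbij' (fun σ => σ⁻¹) (fun σ => σ⁻¹) hinv hinv (fun σ _ => inv_inv σ)
          (fun σ _ => inv_inv σ) (fun σ _ => rfl)
      rw [h2, hB J (by omega), smul_zero]
    · intro I τ hI
      funext ρ'
      rw [Finset.sum_apply, Pi.zero_apply]
      show ∑ σ ∈ H25.SW.PJ I, x (ρ' * (σ * τ)) = 0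
      show ∑ σ ∈ H25.SW.PJ I, ∑ ρ : Equiv.Perm (Fin k), (Equiv.Perm.sign ρ : ℤ) • F (ρ' * (σ * τ) * ρ) ρ = 0
      rw [Finset.sum_comm]
      refine Finset.sum_eq_zero fun ρ _ => ?_
      rw [← Finset.smul_sum]
      have h1 : ∑ σ ∈ H25.SW.PJ I, F (ρ' * (σ * τ) * ρ) ρ = ∑ σ ∈ H25.SW.PJ I, F (ρ' * σ * (τ * ρ)) ρ := by
        refine Finset.sum_congr rfl fun σ _ => ?_
        have e1 : ρ' * (σ * τ) * ρ = ρ' * σ * (τ * ρ) := by group
        rw [e1]
      rw [h1, hA I (by omega), smul_zero]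
  have h1 : x 1 = 0 := by rw [hx]; rfl
  rw [← h1]
  show altSum Φ.cl P = ∑ ρ : Equiv.Perm (Fin k), (Equiv.Perm.sign ρ : ℤ) • F (1 * ρ) ρ
  unfold altSum
  refine Finset.sum_congr rfl fun ρ _ => ?_
  rw [one_mul]
  rfl

end H19.ES
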